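import Pool.Agent.J4H16.LI.Stm4

/-!
# Project LI of helper16: (BE) (helper21)
-/

set_option autoImplicit false

namespace Pool.Agent.J4H21.LI

open Set Polynomial Pool.Agent.J4H16.LI

theorem t_BE : S_QB → S_BE := by
  intro hQB n p hp h0 M R hR hM hb x hx
  obtain ⟨q, hq⟩ : (X : ℝ[X]) ∣ p := X_dvd_iff.2 (by rwa [coeff_zero_eq_eval_zero])
  have hqn : q.natDegree ≤ n := by
    by_cases hq0 : q = 0
    · rw [hq0]; simp
    · have h1 : p.natDegree = 1 + q.natDegree := by
        rw [hq, natDegree_mul X_ne_zero hq0, natDegree_X]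
      omega
  have hev : ∀ y, p.eval y = y * q.eval y := fun y => by rw [hq, eval_mul, eval_X]
  have hqb' : ∀ y, y ≠ 0 → |y| ≤ R → |q.eval y| ≤ M := by
    intro y hy hyR
    have h1 := hb y hyR
    rw [hev, abs_mul, mul_comm M] at h1
    exact le_of_mul_le_mul_left h1 (abs_pos.2 hy)
  have hq0 : |q.eval 0| ≤ M := by
    have hc : Continuous fun y : ℝ => |q.eval y| := q.continuous.abs
    have hcl : IsClosed {y : ℝ | |q.eval y| ≤ M} := isClosed_le hc continuous_const
    have hsub : Ioo (0 : ℝ) R ⊆ {y : ℝ | |q.eval y| ≤ M} := by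
      intro y hy
      exact hqb' y hy.1.ne' (by rw [abs_of_pos hy.1]; exact hy.2.le)
    have h1 : closure (Ioo (0 : ℝ) R) ⊆ {y : ℝ | |q.eval y| ≤ M} := closure_minimal hsub hcl
    rw [closure_Ioo hR.ne] at h1
    exact h1 ⟨le_rfl, hR.le⟩
  have hqb : ∀ y, |y| ≤ R → |q.eval y| ≤ M := by
    intro y hy
    by_cases h : y = 0
    · rw [h]; exact hq0
    · exact hqb' y h hy
  have hder := hQB n q hqn M R hR hM hqb
  have hK : 0 ≤ 2 * n * M / R := by positivity
  -- the increment of `q`
  have hinc : |q.eval x - q.eval 0| ≤ 2 * n * M / R * |x| := by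
    have h1 : ∀ y ∈ Icc (-(R / 2)) (R / 2), ‖deriv (fun z => q.eval z) y‖ ≤ 2 * n * M / R := by
      intro y hy
      rw [Polynomial.deriv, Real.norm_eq_abs]
      exact hder y (abs_le.2 hy)
    have h2 := Convex.norm_image_sub_le_of_norm_deriv_le (f := fun z => q.eval z) (s := Icc (-(R / 2)) (R / 2))
      (x := 0) (y := x) (fun y _ => q.differentiable.differentiableAt) h1 (convex_Icc _ _)
      ⟨by linarith, by linarith⟩ (abs_le.1 hx)
    simpa [Real.norm_eq_abs] using h2
  have hpd : p.derivative = q + X * q.derivative := by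
    rw [hq, derivative_mul, derivative_X, one_mul]
  have e : p.derivative.eval x - p.derivative.eval 0 = (q.eval x - q.eval 0) + x * q.derivative.eval x := by
    rw [hpd]
    simp only [eval_add, eval_mul, eval_X, zero_mul, add_zero]
    ring
  rw [e]
  have h3 : |x * q.derivative.eval x| ≤ 2 * n * M / R * |x| := by
    rw [abs_mul, mul_comm]
    exact mul_le_mul_of_nonneg_right (hder x hx) (abs_nonneg x)
  have h4 := abs_add_le (q.eval x - q.eval 0) (x * q.derivative.eval x)
  have h5 : 4 * n * M / R * |x| = 2 * n * M / R * |x| + 2 * n * M / R * |x| := by ring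
  rw [h5]
  linarith

end Pool.Agent.J4H21.LI
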